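import Pool.Agent.T9h34.QE.Spec

set_option autoImplicit false

/-!
# Counting the edges, for every density
-/

namespace Pool.Agent.T9h34.QE

open Finset
open Pool.Agent.PC34 (prob withClique labelGraph)
open Pool.Agent.T9h34 (graphInput)
open Pool.Agent.HC34 (srcs IsLevel DepthLE)
open Pool.Agent.T9h34.Q

theorem counting_of
    (h1 : ∃ c : ℝ, 0 < c ∧ ∀ n k a L : ℕ, 2 ≤ k → k ≤ n → 1 ≤ a → a < L →
      L ≤ (L - a) * n ^ 2 → (k : ℝ) ^ 2 * Real.sqrt ((L : ℝ) / a - 1) ≤ n →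
      ∃ θ : ℝ,
      prob (fun lab : Sym2 (Fin n) → Fin L => θ ≤ ∑ p : Fin n × Fin n,
        (if graphInput (labelGraph lab a) p = true then (1 : ℝ) else 0)) +
        c * (Real.sqrt (L / a - 1) * (k ^ 2 / n)) ≤
      prob (fun x : (Sym2 (Fin n) → Fin L) × {S : Finset (Fin n) // S.card = k} =>
        θ ≤ ∑ p : Fin n × Fin n,
          (if graphInput (withClique (labelGraph x.1 a) x.2.1) p = true then (1 : ℝ) else 0)))
    (h2 : StSum) :
    ∃ c : ℝ, 0 < c ∧ ∀ n k a L : ℕ, 2 ≤ k → k ≤ n → 1 ≤ a → a < L →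
      L ≤ (L - a) * n ^ 2 → (k : ℝ) ^ 2 * Real.sqrt ((L : ℝ) / a - 1) ≤ n →
      ∃ C : T9h35.RW.Circuit (Fin n × Fin n),
        C.FanIn 2 0 ∧ C.numTests = 0 ∧ C.size ≤ 2 * n ^ 2 ∧ DepthLE C (2 * Nat.log 2 n + 2) ∧
        prob (fun lab : Sym2 (Fin n) → Fin L => C.eval (graphInput (labelGraph lab a)) = true) +
          c * (Real.sqrt (L / a - 1) * (k ^ 2 / n)) ≤
        prob (fun x : (Sym2 (Fin n) → Fin L) × {S : Finset (Fin n) // S.card = k} =>
          C.eval (graphInput (withClique (labelGraph x.1 a) x.2.1)) = true) := by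
  obtain ⟨c, hc, h1⟩ := h1
  refine ⟨c, hc, ?_⟩
  intro n k a L hk hkn ha haL hL hkL
  obtain ⟨θ, hθ⟩ := h1 n k a L hk hkn ha haL hL hkL
  obtain ⟨C, hC1, hC2, hC3, hC4, hC5⟩ := h2 n (le_trans hk hkn) θ
  refine ⟨C, hC1, hC2, hC3, hC4, ?_⟩
  have e1 : (fun lab : Sym2 (Fin n) → Fin L => C.eval (graphInput (labelGraph lab a)) = true) =
      (fun lab : Sym2 (Fin n) → Fin L => θ ≤ ∑ p : Fin n × Fin n,
        (if graphInput (labelGraph lab a) p = true then (1 : ℝ) else 0)) := by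
    funext G
    exact propext (hC5 _)
  have e2 : (fun x : (Sym2 (Fin n) → Fin L) × {S : Finset (Fin n) // S.card = k} =>
      C.eval (graphInput (withClique (labelGraph x.1 a) x.2.1)) = true) =
      (fun x : (Sym2 (Fin n) → Fin L) × {S : Finset (Fin n) // S.card = k} =>
      θ ≤ ∑ p : Fin n × Fin n,
      (if graphInput (withClique (labelGraph x.1 a) x.2.1) p = true then (1 : ℝ) else 0)) := by
    funext x
    exact propext (hC5 _)
  rw [e1, e2]
  exact hθ

end Pool.Agent.T9h34.QE
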