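import Pool.Agent.T9h34.QE.Spec
import Pool.Agent.T9h16.QL.Final

set_option autoImplicit false

/-!
# Planted cliques in G(n, p), sharp at every density: the final theorem
-/

namespace Pool.Agent.T9h34.QE

open Finset
open Pool.Agent.PC34 (prob withClique labelGraph)
open Pool.Agent.T9h34 (graphInput)
open Pool.Agent.T9h34.P (gr)
open Pool.Agent.HC34 (srcs IsLevel DepthLE)
open Pool.Agent.T9h34.Q
open Pool.Agent.T9h16.QL (low EnvL finEnvL toEnv StExchL labelGraph_eq)

/-- The parameters of the theorem are those of the experiment. -/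
theorem stFinalE (hAll : StAllE) (hPar : StParamsE) : StFinalE := by
  intro δ h0 h1
  obtain ⟨n₀, hn₀⟩ := hPar δ h0 h1
  refine ⟨max n₀ 1, ?_⟩
  intro n k f s D a L hn hk hD hns hf ha haL hlog hfl d' C hC hCs hdep
  have hnpos : 0 < n := lt_of_lt_of_le Nat.one_pos (le_trans (le_max_right _ _) hn)
  have hn' : n₀ ≤ n := le_trans (le_max_left _ _) hn
  have hn1 : (1 : ℝ) ≤ n := by exact_mod_cast hnpos
  have hn0 : (0 : ℝ) < n := by linarith
  have ha0 : (0 : ℝ) < a := by exact_mod_cast ha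
  have hμ : (1 : ℝ) ≤ (L : ℝ) / a := by
    rw [le_div_iff₀ ha0, one_mul]
    exact_mod_cast haL
  have hν : (0 : ℝ) ≤ (L : ℝ) / a - 1 := by linarith
  have hsq : 0 ≤ Real.sqrt ((L : ℝ) / a - 1) := Real.sqrt_nonneg _
  have hn2 : (0 : ℝ) < (n : ℝ) ^ (-2 : ℝ) := by positivity
  have hX : 0 ≤ Real.sqrt ((L : ℝ) / a - 1) * (((k : ℝ) * D) ^ 2 * (n : ℝ) ^ (δ - 1)) := by
    positivity
  have htriv : (1 : ℝ) ≤ 2 ^ C.numTests * (Real.sqrt (L / a - 1) *
        (((k : ℝ) * D) ^ 2 * (n : ℝ) ^ (δ - 1)) + (n : ℝ) ^ (-2 : ℝ)) →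
      prob (fun x : (Sym2 (Fin n) → Fin L) × {S : Finset (Fin n) // S.card = k} =>
        C.eval (graphInput (withClique (labelGraph x.1 a) x.2.1)) = true) ≤
      prob (fun lab : Sym2 (Fin n) → Fin L => C.eval (graphInput (labelGraph lab a)) = true) +
        2 ^ C.numTests * (Real.sqrt (L / a - 1) * (((k : ℝ) * D) ^ 2 * (n : ℝ) ^ (δ - 1)) +
          (n : ℝ) ^ (-2 : ℝ)) := by
    intro h
    have h6 := prob_le_one (fun x : (Sym2 (Fin n) → Fin L) × {S : Finset (Fin n) // S.card = k} =>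
      C.eval (graphInput (withClique (labelGraph x.1 a) x.2.1)) = true)
    have h7 := prob_nonneg (fun lab : Sym2 (Fin n) → Fin L =>
      C.eval (graphInput (labelGraph lab a)) = true)
    linarith
  by_cases hkn' : k ≤ n
  · by_cases hT : C.numTests ≤ 2 * Nat.log 2 n + 1
    · by_cases hkn : Real.sqrt ((L : ℝ) / a - 1) * ((k : ℝ) * D) ^ 2 < (n : ℝ) ^ (1 - δ)
      · have hlog' : f * Real.log s * Real.log (1 + ((L : ℝ) / a - 1)) ≤
            δ ^ 2 / 10000 * Real.log n ^ 2 := by
          rw [add_sub_cancel]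
          exact hlog
        obtain ⟨_, c, m, q, B, d, hc, hd, hm, hq, hB, hR, herr⟩ :=
          hn₀ n k f s D ((L : ℝ) / a - 1) hn' hk hkn' hD hns hf hν hlog' hfl hkn
        have h2 := hAll n L a B d m k f c q D s d' C ha haL hnpos hkn' hC hCs hdep hf hc hd hm hq
          (le_trans (Nat.mul_le_mul_left q (by omega)) hB) hR
        simp only [labelGraph_eq, withClique_gr]
        refine h2.trans ?_
        rw [add_sub_cancel] at herr
        have h7 := mul_le_mul_of_nonneg_left herr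
          (by positivity : (0 : ℝ) ≤ 2 ^ C.numTests)
        have h8 : dst L a n (Fintype.card (Rt B d m)) =
            2 * Real.sqrt ((L : ℝ) / a - 1) * (Fintype.card (Rt B d m) : ℕ) / n := rfl
        rw [h8]
        linarith
      · push Not at hkn
        apply htriv
        have h8 : (1 : ℝ) ≤ Real.sqrt (L / a - 1) * (((k : ℝ) * D) ^ 2 * (n : ℝ) ^ (δ - 1)) := by
          calc (1 : ℝ) = (n : ℝ) ^ (1 - δ) * (n : ℝ) ^ (δ - 1) := by
                rw [← Real.rpow_add hn0]
                simp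
            _ ≤ Real.sqrt ((L : ℝ) / a - 1) * ((k : ℝ) * D) ^ 2 * (n : ℝ) ^ (δ - 1) :=
                mul_le_mul_of_nonneg_right hkn (by positivity)
            _ = _ := by ring
        have h9 : (1 : ℝ) ≤ 2 ^ C.numTests := one_le_pow₀ (by norm_num)
        nlinarith
    · push Not at hT
      have h2 : n ^ 2 < 2 ^ C.numTests := by
        have h3 := Nat.lt_pow_succ_log_self (b := 2) (by norm_num) n
        calc n ^ 2 < (2 ^ (Nat.log 2 n + 1)) ^ 2 := Nat.pow_lt_pow_left h3 (by norm_num)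
          _ = 2 ^ (2 * Nat.log 2 n + 2) := by
              rw [← pow_mul]; congr 1; ring
          _ ≤ 2 ^ C.numTests := Nat.pow_le_pow_right (by norm_num) (by omega)
      have h3 : (n : ℝ) ^ 2 ≤ 2 ^ C.numTests := by exact_mod_cast h2.le
      apply htriv
      have h4 : (n : ℝ) ^ 2 * (n : ℝ) ^ (-2 : ℝ) = 1 := by
        rw [← Real.rpow_natCast, ← Real.rpow_add hn0]
        norm_num
      have h5 : (n : ℝ) ^ 2 * (n : ℝ) ^ (-2 : ℝ) ≤ 2 ^ C.numTests * (n : ℝ) ^ (-2 : ℝ) :=
        mul_le_mul_of_nonneg_right h3 hn2.le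
      have h6 : 0 ≤ 2 ^ C.numTests * (Real.sqrt ((L : ℝ) / a - 1) *
        (((k : ℝ) * D) ^ 2 * (n : ℝ) ^ (δ - 1))) := by positivity
      nlinarith
  · have hem : IsEmpty {S : Finset (Fin n) // S.card = k} := by
      constructor
      rintro ⟨S, hS⟩
      have := Finset.card_le_univ S
      rw [Fintype.card_fin] at this
      omega
    have h0 : prob (fun x : (Sym2 (Fin n) → Fin L) × {S : Finset (Fin n) // S.card = k} =>
        C.eval (graphInput (withClique (labelGraph x.1 a) x.2.1)) = true) = 0 := by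
      unfold prob
      rw [Fintype.card_eq_zero]
      simp
    rw [h0]
    have h7 := prob_nonneg (fun lab : Sym2 (Fin n) → Fin L =>
      C.eval (graphInput (labelGraph lab a)) = true)
    have h8 : 0 ≤ 2 ^ C.numTests * (Real.sqrt ((L : ℝ) / a - 1) *
        (((k : ℝ) * D) ^ 2 * (n : ℝ) ^ (δ - 1)) + (n : ℝ) ^ (-2 : ℝ)) := by positivity
    linarith

end Pool.Agent.T9h34.QE
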