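import Pool.Agent.T9h34.QE.Spec

set_option autoImplicit false

/-!
# The average case k-clique problem on G(n, p) at the threshold, for all k up to n ^ c

Uniform versions of `StThr` (T9h41/QL/Thr) and `StAvg` (T9h16/QL/Avg): `k` may grow, for instance
`k` about `2 * log n / log 2` and `p` about `1 / 2` (the clique number of a random graph), or
`k = n ^ c` and `p` near `1`.
-/

namespace Pool.Agent.T9h34.QE

open Finset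
open Pool.Agent.PC34 (prob withClique labelGraph)
open Pool.Agent.T9h34 (graphInput)
open Pool.Agent.HC34 (srcs IsLevel DepthLE)
open Pool.Agent.T9h16.QL (meanCl ratio2 StBias)

/-- (M) The second moment at the threshold, uniformly in `k`.  Let `M = meanCl n k p`.
Term `j = 0` is at most `1`, term `j = k` is `1 / M ≤ 4`.
If `1 ≤ j` and `2 * j ≤ k + 1`: `(n - k).choose (k - j) ≤ (k / n) ^ j * n.choose k`, so the term is at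
most `(k ^ 2 / n) ^ j * (p ^ (- (j - 1) / 2)) ^ j`; `p ^ (k * (k - 1) / 2) ≥ 1 / (4 * n ^ k)` gives
`p ^ (- (k - 1) / 2) ≤ 4 * n`, `p ^ (- (j - 1) / 2) ≤ (4 * n) ^ (1 / 2)`, so the term is at most
`(2 * k ^ 2 / √n) ^ j ≤ (2 * n ^ (-3 / 10)) ^ j`.
If `j = k - i`, `1 ≤ i`, `2 * i ≤ k + 1`: the term is
`k.choose i * (n - k).choose i * p ^ (i * (2 * k - i - 1) / 2) / M`;
`p ^ (k * (k - 1) / 2) ≤ 1 / (2 * n.choose k) ≤ (k / n) ^ k` gives `p ^ ((k - 1) / 2) ≤ k / n`, and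
`(2 * k - i - 1) / (k - 1) ≥ 3 / 2`, so the term is at most `4 * (k * n * (k / n) ^ (3 / 2)) ^ i
≤ 4 * (n ^ (-1 / 4)) ^ i`.
Logarithm: `1 / p ≤ (4 * n ^ k) ^ (2 / (k * (k - 1)))`. -/
def StThrE : Prop := ∃ n₀ : ℕ, ∀ n k a L : ℕ, n₀ ≤ n → 3 ≤ k → k ^ 10 ≤ n → 1 ≤ a → a ≤ L →
  1 / 4 ≤ meanCl n k ((a : ℝ) / L) → meanCl n k ((a : ℝ) / L) ≤ 1 / 2 →
  ratio2 n k ((a : ℝ) / L) ≤ 6 ∧ Real.log (L / a) ≤ 3 / (k - 1) * Real.log n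

/-- (A) The average case, from `StFinalE`, `StBias`, (M), with
`s = ⌊n ^ (δ ^ 2 * (k - 1) / 60000)⌋₊ ≥ n`: `2 * log s * log (L / a) ≤ δ ^ 2 / 10000 * log n ^ 2`,
`2 * log s ≤ k * log n ≤ n ^ (δ / 100)`, `√(L / a - 1) ≤ n ^ (3 / 2 / (k - 1)) ≤ n ^ (δ / 2)`, so
`ε = 2 ^ T * (√(L / a - 1) * ((k * D) ^ 2 * n ^ (δ - 1)) + n ^ (-2)) ≤ n ^ (- δ / 2) + n ^ (-1)
≤ 1 / 100`; if `η < 1 / 50` then `1 - 1 / 2 - 1 / 100 - 1 / 50 ≤ sqrt (6 / 50)`, which is false. -/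
def StAvgE : Prop := ∀ δ : ℝ, 0 < δ → δ ≤ 1 / 2 → ∃ n₀ : ℕ, ∀ n k D a L : ℕ, n₀ ≤ n →
  60000 ≤ δ ^ 2 * ((k : ℝ) - 1) → (k : ℝ) ≤ (n : ℝ) ^ (δ / 200) → 1 ≤ D → 1 ≤ a → a ≤ L →
  1 / 4 ≤ meanCl n k ((a : ℝ) / L) → meanCl n k ((a : ℝ) / L) ≤ 1 / 2 →
  ∀ (d : ℕ) (C : T9h35.RW.Circuit (Fin n × Fin n)), C.FanIn 2 d → DepthLE C D →
  ((C.size + C.numTests : ℕ) : ℝ) ≤ (n : ℝ) ^ (δ ^ 2 * ((k : ℝ) - 1) / 60000) →
  2 ^ C.numTests * ((k : ℝ) * D) ^ 2 ≤ (n : ℝ) ^ (1 - 2 * δ) →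
  1 / 50 ≤ prob (fun lab : Sym2 (Fin n) → Fin L =>
    ¬ (C.eval (graphInput (labelGraph lab a)) = true ↔
      ∃ S : Finset (Fin n), (labelGraph lab a).IsNClique k S))

end Pool.Agent.T9h34.QE
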