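import Pool.Agent.T9h16.QL.Spec
import Pool.Agent.T9h16.QL.Spec2

set_option autoImplicit false

/-!
# Planted cliques in G(n, p), sharp at every density p = a / L

Notation: `nu L a = L / a - 1 = 1 / p - 1`.  Two changes in `Pool.Agent.T9h16.QL`:

* the edges of a critical pattern are missing in `G_0`, so absorbing an edge costs `nu = (1 - p) / p`
  instead of `1 / p`; the sum over all patterns with a given star cover is a sum over all sets `K` of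
  pairs of `nu ^ K.card`, at most `(1 + nu) ^ (j * (j + 1) / 2)`; there are at most `(4 * j) ^ j` star
  covers (`A`, `C`, `par`);
* one star has distance `2 * sqrt nu * R / n`.

All pieces are small changes of the QL pieces of the same name.
-/

namespace Pool.Agent.T9h34.QE

open Finset
open Pool.Agent.PC34 (prob withClique labelGraph)
open Pool.Agent.T9h34 (graphInput)
open Pool.Agent.T9h34.P (gr)
open Pool.Agent.HC34 (srcs IsLevel DepthLE)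
open Pool.Agent.T9h34.Q
open Pool.Agent.T9h16.QL (low EnvL finEnvL toEnv StExchL)

section defs

variable {j : ℕ}

/-- `1 / p - 1` for `p = a / L`. -/
noncomputable def nu (L a : ℕ) : ℝ := (L : ℝ) / a - 1

/-- The edges of a star cover. -/
def leafS (C : Finset (Fin j)) (par : Fin j → Fin j) : Finset (Sym2 (Fin j)) :=
  Cᶜ.image (fun w => s(par w, w))

/-- The weight of the critical patterns with `j` vertices, `μ = 1 / p`, `x = k / (m + 1)`. -/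
noncomputable def wgtE (μ x : ℝ) (j : ℕ) : ℝ :=
  (4 * (j : ℝ)) ^ j * μ ^ (j * (j + 1) / 2) * x ^ j

/-- The probability of an error, for circuits without gates of the second kind; `δ` is the distance
made by one star. -/
noncomputable def errE (s q c w M : ℕ) (μ x δ : ℝ) : ℝ :=
  s * (q * ∑ j ∈ Icc (c + 1) w, wgtE μ x j) + M * δ * (q * ∑ j ∈ Icc 1 c, wgtE μ x j)

/-- The distance made by one star with `R` leaves. -/
noncomputable def dst (L a n R : ℕ) : ℝ := 2 * Real.sqrt (nu L a) * R / n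

end defs

/-! ## Part (1) -/

/-- (E) as `StChangeL` (T9h73/QL/ChangeL), only labels `≥ a` on `K`.  For fixed labels outside `K`
with `Θ (low ∪ K)`: `(L - a) ^ K.card` choices on the left, `a ^ K.card` (all labels smaller than
`a`) on the right. -/
def StChangeE : Prop := ∀ (E : Type) [Fintype E] [DecidableEq E] (L a : ℕ) (K : Finset E)
  (Θ : Finset E → Prop), a ≤ L →
  a ^ K.card * Nat.card {lab : E → Fin L // Disjoint K (low lab a) ∧ Θ (low lab a ∪ K)} ≤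
  (L - a) ^ K.card * Nat.card {lab : E → Fin L // Θ (low lab a)}

/-- (E2) as `StExtraL` (T9h12/QL/ExtraL), from (E), with `K = (F \ leafS C par).image (Sym2.map φ)`
(the cardinality is that of `F \ leafS C par`, since `φ` is injective).  A critical pattern has
`K` disjoint from `G_0` (an edge of `G_0` can be omitted). -/
def StExtraE : Prop := ∀ (V : Type) [Fintype V] [DecidableEq V] (L a₀ B d m j a : ℕ), a₀ ≤ L →
  ∀ (h : Finset (Sym2 V) → ℝ), Monotone h → ∀ (φ : Fin j → V), Function.Injective φ →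
  ∀ (F : Finset (Sym2 (Fin j))) (C A : Finset (Fin j)) (par : Fin j → Fin j), A ⊆ C →
  (∀ w ∉ C, par w ∈ C ∧ s(par w, w) ∈ F) →
  ∀ (pk : Ix B d m → Packet V B d m) (ν : V → Ix B d m → V),
  a₀ ^ (F \ leafS C par).card * Nat.card {lab : Sym2 V → Fin L // Crit h (low lab a₀, pk, ν) a
    (F.image (Sym2.map φ)) (A.image φ) (univ.image φ)} ≤
  (L - a₀) ^ (F \ leafS C par).card * Nat.card {lab : Sym2 V → Fin L //
    CritS h (low lab a₀, pk, ν) a φ C A par}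

/-- (F1) as `StShapeL` (T9h71/QL/ExchL), from `StCover` and (E2). -/
def StShapeE : Prop := ∀ (V : Type) [Fintype V] [DecidableEq V] [Nonempty V]
  (L a₀ B d m j a : ℕ), 1 ≤ a₀ → a₀ ≤ L →
  ∀ (h : Finset (Sym2 V) → ℝ), Monotone h → ∀ (δ : ℝ) (F : Finset (Sym2 (Fin j)))
  (A : Finset (Fin j)), (∀ e ∈ F, ¬ e.IsDiag) → (∀ v, v ∈ A ∨ ∃ e ∈ F, v ∈ e) →
  (∀ (C : Finset (Fin j)) (par : Fin j → Fin j), A ⊆ C → (∀ w ∉ C, par w ∈ C) →
    (∀ x ∈ C, x ∉ A → ∃ w ∉ C, par w = x) →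
    ((m : ℝ) + 1) ^ j * prob (fun x : (Fin j → V) × EnvL V L B d m =>
      Function.Injective x.1 ∧ CritS h (toEnv a₀ x.2) a x.1 C A par) ≤ δ) →
  ∃ (C : Finset (Fin j)) (par : Fin j → Fin j), (∀ w ∉ C, s(par w, w) ∈ F) ∧
    ((m : ℝ) + 1) ^ j * prob (fun x : (Fin j → V) × EnvL V L B d m =>
      Function.Injective x.1 ∧ Crit h (toEnv a₀ x.2) a (F.image (Sym2.map x.1)) (A.image x.1)
        (univ.image x.1)) ≤ nu L a₀ ^ (F \ leafS C par).card * δ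

/-- (F2) as `StBadL` (T9h41/QL/BadL).  The map `(F, A) ↦ (A, C, par, F \ leafS C par)` is injective
(`leafS C par ⊆ F`), so the sum over all `(F, A)` of `nu ^ (F \ leafS C par).card` is at most
`2 ^ j * 2 ^ j * j ^ j * ∑ K : Finset (Sym2 (Fin j)), nu ^ K.card
= (4 * j) ^ j * (1 + nu) ^ (j * (j + 1) / 2)`. -/
def StBadE : Prop := ∀ (V : Type) [Fintype V] [DecidableEq V] [Nonempty V] (L a₀ B d m k : ℕ),
  1 ≤ a₀ → a₀ ≤ L → k ≤ Fintype.card V → ∀ (t q lo hi : ℕ) (h : Finset (Sym2 V) → ℝ) (δ : ℝ),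
  0 ≤ δ →
  (∀ a j, a < t + q → lo ≤ j → j ≤ hi → ∀ (F : Finset (Sym2 (Fin j)))
    (A : Finset (Fin j)), (∀ e ∈ F, ¬ e.IsDiag) → (∀ v, v ∈ A ∨ ∃ e ∈ F, v ∈ e) →
    ∃ (C : Finset (Fin j)) (par : Fin j → Fin j), (∀ w ∉ C, s(par w, w) ∈ F) ∧
    ((m : ℝ) + 1) ^ j * prob (fun x : (Fin j → V) × EnvL V L B d m =>
      Function.Injective x.1 ∧ Crit h (toEnv a₀ x.2) a (F.image (Sym2.map x.1)) (A.image x.1)
        (univ.image x.1)) ≤ nu L a₀ ^ (F \ leafS C par).card * δ) →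
  prob (fun x : {S : Finset V // S.card = k} × EnvL V L B d m =>
    Bad h t q lo hi x.1.1 (toEnv a₀ x.2)) ≤
  δ * ((q : ℝ) * ∑ j ∈ Icc lo hi, wgtE ((L : ℝ) / a₀) ((k : ℝ) / (m + 1)) j)

/-- (F3) as `StBadIn`, from `StExchL`, (F1), (F2): for inner gates. -/
def StBadInE : Prop := ∀ (V : Type) [Fintype V] [DecidableEq V] [Nonempty V]
  (L a₀ B d m k : ℕ), 1 ≤ a₀ → a₀ ≤ L → k ≤ Fintype.card V → ∀ (t q lo hi : ℕ), t + q ≤ B →
  1 ≤ lo → hi ≤ d → 1 ≤ m → ∀ (h : Finset (Sym2 V) → ℝ), Monotone h →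
  prob (fun x : {S : Finset V // S.card = k} × EnvL V L B d m =>
    Bad h t q lo hi x.1.1 (toEnv a₀ x.2)) ≤
  (q : ℝ) * ∑ j ∈ Icc lo hi, wgtE ((L : ℝ) / a₀) ((k : ℝ) / (m + 1)) j

/-- (H1) One star, as `StStarL` (T9h65/QL/StarL): with `nu = L / a - 1`,
`E_{p, p'} (1 + nu) ^ |star p ∩ star p'|` is at most
`1 + (1 / n) * ((1 + nu * R / n) ^ R - 1) + nu * (R / n) ^ 2 ≤ 1 + 3 * nu * R ^ 2 / n ^ 2`
if `R ^ 2 * nu ≤ n`; then Cauchy-Schwarz. -/
def StStarE : Prop := ∀ (V ρ : Type) [Fintype V] [DecidableEq V] [Nonempty V] [Fintype ρ]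
  [DecidableEq ρ] (L a : ℕ), 1 ≤ a → a ≤ L →
  (Fintype.card ρ : ℝ) ^ 2 * nu L a ≤ Fintype.card V → ∀ Θ : Finset (Sym2 V) → Prop,
  prob (fun x : (Sym2 V → Fin L) × (Option ρ → V) => Θ (low x.1 a ∪ star x.2)) ≤
  prob (fun lab : Sym2 V → Fin L => Θ (low lab a)) + dst L a (Fintype.card V) (Fintype.card ρ)

/-- (H2) All stars, from (H1), as `StTVL` (T9h16/QL/TVL). -/
def StTVE : Prop := ∀ (V : Type) [Fintype V] [DecidableEq V] [Nonempty V] (L a B d m : ℕ),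
  1 ≤ a → a ≤ L → (Fintype.card (Rt B d m) : ℝ) ^ 2 * nu L a ≤ Fintype.card V →
  ∀ Θ : Finset (Sym2 V) → Prop,
  prob (fun ω : EnvL V L B d m => Θ (stage (toEnv a ω) B)) ≤
  prob (fun lab : Sym2 V → Fin L => Θ (low lab a)) +
    Fintype.card (Ix B d m) * dst L a (Fintype.card V) (Fintype.card (Rt B d m))

/-- (H3) as `StAllTVL` (T9h12/QL/AllTVL), from (H1). -/
def StAllTVE : Prop := ∀ (V : Type) [Fintype V] [DecidableEq V] [Nonempty V]
  (L a₀ B d m j : ℕ) (a : Fin B), 1 ≤ a₀ → a₀ ≤ L → j ≤ d →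
  (Fintype.card (Rt B d m) : ℝ) ^ 2 * nu L a₀ ≤ Fintype.card V →
  ∀ (h : Finset (Sym2 V) → ℝ), Monotone h → IsBool h →
  ∀ (C : Finset (Fin j)) (par : Fin j → Fin j), (∀ w ∉ C, par w ∈ C) →
  prob (fun x : (Sym2 V → Fin L) × (Fin j → V) × (Fin j → Ix B d m → V) ×
      (Ix B d m → Option (Rt B d m) → V) =>
    h (baseG (low x.1 a₀) x.2.2.2 a) < h (baseG (low x.1 a₀) x.2.2.2 a ∪
      allG x.2.1 x.2.2.1 x.2.2.2 a C par)) ≤
  ((d * m + j : ℕ) : ℝ) * dst L a₀ (Fintype.card V) (Fintype.card (Rt B d m))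

/-- (F4) as `StBadOut`, from `StExchL`, (F1), (F2), (H3): for the output. -/
def StBadOutE : Prop := ∀ (V : Type) [Fintype V] [DecidableEq V] [Nonempty V]
  (L a₀ B d m k : ℕ), 1 ≤ a₀ → a₀ ≤ L → k ≤ Fintype.card V → ∀ (t q lo hi : ℕ), t + q ≤ B →
  1 ≤ lo → hi ≤ d → 1 ≤ m → (Fintype.card (Rt B d m) : ℝ) ^ 2 * nu L a₀ ≤ Fintype.card V →
  ∀ (h : Finset (Sym2 V) → ℝ), Monotone h → IsBool h →
  prob (fun x : {S : Finset V // S.card = k} × EnvL V L B d m =>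
    Bad h t q lo hi x.1.1 (toEnv a₀ x.2)) ≤
  ((d * m + hi : ℕ) : ℝ) * dst L a₀ (Fintype.card V) (Fintype.card (Rt B d m)) *
    ((q : ℝ) * ∑ j ∈ Icc lo hi, wgtE ((L : ℝ) / a₀) ((k : ℝ) / (m + 1)) j)

/-- (G3) as `StMonoL` (T9h51/QL/MonoL), from (F3), (F4) and `StCircB`. -/
def StMonoE : Prop := ∀ (n L a₀ B d m k f c q D s : ℕ) (C : T9h35.RW.Circuit (Fin n × Fin n)),
  1 ≤ a₀ → a₀ ≤ L → 0 < n → k ≤ n → (∀ g ∈ C.gates, g.IsMono f) → C.size ≤ s → DepthLE C D →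
  1 ≤ f → 2 ≤ c → d = f * c → 1 ≤ m → (d ^ 2 + 1) * (d + 1) ≤ q → q * (D + 1) ≤ B →
  (Fintype.card (Rt B d m) : ℝ) ^ 2 * nu L a₀ ≤ n →
  prob (fun x : {S : Finset (Fin n) // S.card = k} × EnvL (Fin n) L B d m =>
    C.eval (graphInput (gr (low x.2.1 a₀ ∪ KT x.1.1))) = true ∧
      C.eval (graphInput (gr (stage (toEnv a₀ x.2) B))) = false) ≤
  errE s q c d (d * m + c) ((L : ℝ) / a₀) ((k : ℝ) / (m + 1))
    (dst L a₀ n (Fintype.card (Rt B d m)))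

/-- (K) as `StAllL` (T9h75/QL/AllL), from (G3), `StDetector`, `StReads`, (H2). -/
def StAllE : Prop := ∀ (n L a₀ B d m k f c q D s d' : ℕ)
  (C : T9h35.RW.Circuit (Fin n × Fin n)),
  1 ≤ a₀ → a₀ ≤ L → 0 < n → k ≤ n → C.FanIn f d' → C.size + C.numTests ≤ s → DepthLE C D →
  2 ≤ f → 2 ≤ c → d = f * c → 1 ≤ m → (d ^ 2 + 1) * (d + 1) ≤ q →
  q * (D + C.numTests + 2) ≤ B → (Fintype.card (Rt B d m) : ℝ) ^ 2 * nu L a₀ ≤ n →
  prob (fun x : (Sym2 (Fin n) → Fin L) × {S : Finset (Fin n) // S.card = k} =>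
    C.eval (graphInput (gr (low x.1 a₀ ∪ KT x.2.1))) = true) ≤
  prob (fun lab : Sym2 (Fin n) → Fin L => C.eval (graphInput (gr (low lab a₀))) = true) +
  2 ^ C.numTests * (errE (s + 1) q c d (d * m + c) ((L : ℝ) / a₀) ((k : ℝ) / (m + 1))
      (dst L a₀ n (Fintype.card (Rt B d m))) +
    Fintype.card (Ix B d m) * dst L a₀ n (Fintype.card (Rt B d m)))

/-- (P) Parameters, as `StParamsL` (T9h46/QL/ParamsL); `ν = 1 / p - 1`.  Let `γ = δ / 5`,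
`m = ⌊k * n ^ γ⌋₊ + 1`, `c = ⌈2 * (log s + 4 * log n) / (γ * log n)⌉₊ + 2`, `d = f * c`,
`q = (d ^ 2 + 1) * (d + 1)`, `B = q * (D + 2 * Nat.log 2 n + 3)`.  Then
`c ≤ 13 * log s / (γ * log n)`, `d ≤ 65 * f * log s / (δ * log n) ≤ n ^ (δ / 100)`, and
`(d + 1) / 2 * log (1 + ν) ≤ (3 / 4) * (65 / 10000) * δ * log n`, so
`wgtE (1 + ν) x j ≤ (n ^ (γ / 8) * x) ^ j ≤ (n ^ (-7 * γ / 8)) ^ j` for `1 ≤ j ≤ d`.  The first part
of `errE` is at most `n ^ (-2)`; the rest is at most a power of `log n` times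
`d ^ 8 * sqrt ν * (D * m) ^ 2 / n ≤ 4 * sqrt ν * (k * D) ^ 2 * n ^ (2 * γ + 8 * δ / 100 - 1)`.  Moreover
`log (1 + ν) ≤ δ ^ 2 / 20000 * log n`, so `sqrt ν ≤ n ^ (δ / 40000)`, and
`R ^ 2 * ν ≤ n ^ (small) * (k * D) ^ 2 * ν * n ^ (2 * γ) ≤ n` by the last hypothesis. -/
def StParamsE : Prop := ∀ δ : ℝ, 0 < δ → δ ≤ 1 → ∃ n₀ : ℕ, ∀ (n k f s D : ℕ) (ν : ℝ), n₀ ≤ n →
  1 ≤ k → k ≤ n → 1 ≤ D → n ≤ s → 2 ≤ f → 0 ≤ ν →
  f * Real.log s * Real.log (1 + ν) ≤ δ ^ 2 / 10000 * Real.log n ^ 2 →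
  f * Real.log s ≤ (n : ℝ) ^ (δ / 100) →
  Real.sqrt ν * ((k : ℝ) * D) ^ 2 < (n : ℝ) ^ (1 - δ) →
  0 < n ∧ ∃ c m q B d : ℕ, 2 ≤ c ∧ d = f * c ∧ 1 ≤ m ∧ (d ^ 2 + 1) * (d + 1) ≤ q ∧
    q * (D + 2 * Nat.log 2 n + 3) ≤ B ∧ ((Fintype.card (Rt B d m) : ℝ)) ^ 2 * ν ≤ n ∧
    errE (s + 1) q c d (d * m + c) (1 + ν) ((k : ℝ) / (m + 1))
      (2 * Real.sqrt ν * (Fintype.card (Rt B d m) : ℕ) / n) +
      Fintype.card (Ix B d m) * (2 * Real.sqrt ν * (Fintype.card (Rt B d m) : ℕ) / n) ≤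
    Real.sqrt ν * (((k : ℝ) * D) ^ 2 * (n : ℝ) ^ (δ - 1)) + (n : ℝ) ^ (-2 : ℝ)

/-- (Z) The theorem, from (K), (P) (as T9h16/QL/Final; tests `T ≤ 2 * Nat.log 2 n + 1`, otherwise
`2 ^ T * n ^ (-2) ≥ 1`; for `k > n` the left side is `0`). -/
def StFinalE : Prop := ∀ δ : ℝ, 0 < δ → δ ≤ 1 → ∃ n₀ : ℕ, ∀ n k f s D a L : ℕ, n₀ ≤ n →
  1 ≤ k → 1 ≤ D → n ≤ s → 2 ≤ f → 1 ≤ a → a ≤ L →
  f * Real.log s * Real.log (L / a) ≤ δ ^ 2 / 10000 * Real.log n ^ 2 →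
  f * Real.log s ≤ (n : ℝ) ^ (δ / 100) →
  ∀ (d : ℕ) (C : T9h35.RW.Circuit (Fin n × Fin n)), C.FanIn f d → C.size + C.numTests ≤ s →
  DepthLE C D →
  prob (fun x : (Sym2 (Fin n) → Fin L) × {S : Finset (Fin n) // S.card = k} =>
    C.eval (graphInput (withClique (labelGraph x.1 a) x.2.1)) = true) ≤
  prob (fun lab : Sym2 (Fin n) → Fin L => C.eval (graphInput (labelGraph lab a)) = true) +
    2 ^ C.numTests * (Real.sqrt (L / a - 1) * (((k : ℝ) * D) ^ 2 * (n : ℝ) ^ (δ - 1)) +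
      (n : ℝ) ^ (-2 : ℝ))

/-! ## Parts (2) and (3) -/

/-- The standard deviation `sqrt (p * (1 - p))` of one pair, `p = a / L`. -/
noncomputable def sg (L a : ℕ) : ℝ := Real.sqrt ((a : ℝ) / L * (1 - (a : ℝ) / L))

/-- (S1E) as `StCountL1` (T9h51/QL/CountL1), gain `c * sqrt (1 / p - 1) * k ^ 2 / n`.  Let `e_r` be
the number of edges outside `S` (variance at most `(sg * n) ^ 2 / 2`, mean `μ_r`), `N_new` the number
of the new edges (independent of `e_r`, mean `(1 - p) * M`, second moment at most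
`(1 - p) * M * ((1 - p) * M + 1)`, `M = k * (k - 1) / 2`).  The edges go from `M + e_r - N_new` to
`M + e_r`.  Take the thresholds at distance at most `2 * sg * n + 8 * ((1 - p) * M + 1)` from
`M + μ_r`: at most `30 * sg * n`, since `(1 - p) * k ^ 2 = sg * sqrt (1 / p - 1) * k ^ 2 ≤ sg * n`.
The sum over them of the gains is at least
`P[|e_r - μ_r| ≤ 2 * sg * n] * E[N_new; N_new ≤ 8 * ((1 - p) * M + 1)] ≥ (7 / 8) ^ 2 * (1 - p) * M`,
and `(1 - p) / sg = sqrt (1 / p - 1)`.  Ordered pairs: factor `2`. -/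
def StCountE : Prop := ∃ c : ℝ, 0 < c ∧ ∀ n k a L : ℕ, 2 ≤ k → k ≤ n → 1 ≤ a → a ≤ L →
  1 ≤ sg L a * n → Real.sqrt (L / a - 1) * (k : ℝ) ^ 2 ≤ n →
  ∃ θ : ℝ,
  prob (fun lab : Sym2 (Fin n) → Fin L =>
    θ ≤ ∑ p : Fin n × Fin n, (if graphInput (labelGraph lab a) p = true then (1 : ℝ) else 0)) +
    c * (Real.sqrt (L / a - 1) * ((k : ℝ) ^ 2 / n)) ≤
  prob (fun x : (Sym2 (Fin n) → Fin L) × {S : Finset (Fin n) // S.card = k} =>
    θ ≤ ∑ p : Fin n × Fin n,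
      (if graphInput (withClique (labelGraph x.1 a) x.2.1) p = true then (1 : ℝ) else 0))

/-- (X6E) as `StP6L` (T9h77/QL/X6L): the variance of the number of ordered adjacent pairs is at most
`2 * (sg * n) ^ 2`, so the windows which meet `[μ - λ * sg * n, μ + λ * sg * n]`, `λ = 2 / sqrt α`,
are at most `6 * sg * n / (W * sqrt α)`. -/
def StP6E : Prop := ∃ c : ℝ, 0 < c ∧ ∀ (n k W a L : ℕ), 2 ≤ n → k ≤ n → 1 ≤ W →
  1 ≤ a → a ≤ L → (W : ℝ) ≤ sg L a * n →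
  ∀ (P : SimpleGraph (Fin n) → Prop) (α : ℝ), 0 < α → α ≤ 1 →
  prob (fun lab : Sym2 (Fin n) → Fin L => P (labelGraph lab a)) + α ≤
    prob (fun x : (Sym2 (Fin n) → Fin L) × {S : Finset (Fin n) // S.card = k} =>
      P (withClique (labelGraph x.1 a) x.2.1)) →
  ∃ θ : ℕ,
    prob (fun lab : Sym2 (Fin n) → Fin L => θ + W ≤ ones (graphInput (labelGraph lab a)) ∨
      (θ ≤ ones (graphInput (labelGraph lab a)) ∧
        ones (graphInput (labelGraph lab a)) < θ + W ∧ P (labelGraph lab a))) +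
      c * α ^ 2 * (W / (sg L a * n)) ≤
    prob (fun x : (Sym2 (Fin n) → Fin L) × {S : Finset (Fin n) // S.card = k} =>
      θ + W ≤ ones (graphInput (withClique (labelGraph x.1 a) x.2.1)) ∨
      (θ ≤ ones (graphInput (withClique (labelGraph x.1 a) x.2.1)) ∧
        ones (graphInput (withClique (labelGraph x.1 a) x.2.1)) < θ + W ∧
        P (withClique (labelGraph x.1 a) x.2.1)))

/-- (X7E) as `StP7L` (T9h35/QL/X7L), from (X5) `StP5`, (X6E). -/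
def StP7E : Prop := ∃ c : ℝ, 0 < c ∧ ∀ (n k f d' DA T a L : ℕ)
  (A : T9h35.RW.Circuit (Fin n × Fin n))
  (α : ℝ), 2 ≤ n → k ≤ n → (2 : ℝ) ^ T ≤ sg L a * n → 2 ≤ f → A.FanIn f d' → 2 * d' ≤ f →
  DepthLE A DA → 1 ≤ a → a ≤ L → 0 < α → α ≤ 1 →
  prob (fun lab : Sym2 (Fin n) → Fin L => A.eval (graphInput (labelGraph lab a)) = true) + α ≤
    prob (fun x : (Sym2 (Fin n) → Fin L) × {S : Finset (Fin n) // S.card = k} =>
      A.eval (graphInput (withClique (labelGraph x.1 a) x.2.1)) = true) →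
  ∃ C : T9h35.RW.Circuit (Fin n × Fin n), C.FanIn f 1 ∧ C.numTests = T ∧
    C.size ≤ 2 * A.size + 10 * n ^ 4 ∧ DepthLE C (DA + 10 * Nat.log 2 n + 10) ∧
    prob (fun lab : Sym2 (Fin n) → Fin L => C.eval (graphInput (labelGraph lab a)) = true) +
        c * α ^ 2 * (2 ^ T / (sg L a * n)) ≤
      prob (fun x : (Sym2 (Fin n) → Fin L) × {S : Finset (Fin n) // S.card = k} =>
        C.eval (graphInput (withClique (labelGraph x.1 a) x.2.1)) = true)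

end Pool.Agent.T9h34.QE
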