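import Pool.Agent.T9h34.QE.Final
import Pool.Agent.T9h34.QE.Counting
import Pool.Agent.T9h34.QE.Spec2
import Pool.Agent.T9h75.QC.Walk
import Pool.Agent.T9h75.QC.Cover
import Pool.Agent.T9h75.QC.Reduce
import Pool.Agent.T9h75.QC.UniqueB
import Pool.Agent.T9h71.QC.Det
import Pool.Agent.T9h69.QC.RotB
import Pool.Agent.T9h51.QC.CircB
import Pool.Agent.T9h51.QC.Sum
import Pool.Agent.T9h36.QC.Detector
import Pool.Agent.T9h12.QC.X5
import Pool.Agent.T9h67.QC.X012
import Pool.Agent.T9h67.QC.X3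
import Pool.Agent.T9h35.QC.X4
import Pool.Agent.T9h71.QL.ExchL
import Pool.Agent.T9h16.QL.Bias
import Pool.Agent.T9h77.QE.ExtraE
import Pool.Agent.T9h35.QE.ShapeE
import Pool.Agent.T9h41.QE.BadE
import Pool.Agent.T9h95.QE.BadIn
import Pool.Agent.T9h41.QE.BadOutE
import Pool.Agent.T9h65.QE.StarE
import Pool.Agent.T9h93.QE.AllTVE
import Pool.Agent.T9h93.QE.TVE
import Pool.Agent.T9h22.QE.MonoE
import Pool.Agent.T9h22.QE.AllE
import Pool.Agent.T9h65.QE.ParamsE
import Pool.Agent.T9h51.QE.Count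
import Pool.Agent.T9h77.QE.X6E
import Pool.Agent.T9h35.QE.X7E
import Pool.Agent.T9h41.QE.ThrE
import Pool.Agent.T9h80.QE.AvgE

set_option autoImplicit false

/-!
# Planted cliques in G(n, p), sharp at every density: assembly
-/

namespace Pool.Agent.T9h34.QE

open Pool.Agent.PC34 (prob withClique labelGraph)
open Pool.Agent.T9h34 (graphInput)
open Pool.Agent.HC34 (DepthLE)
open Pool.Agent.T9h34.Q
open Pool.Agent.T9h16.QL (StExchL)

theorem exchL : StExchL :=
  T9h71.QL.stExchL T9h71.QC.stDet (T9h69.QC.stRotB T9h75.QC.stUniqueB) T9h75.QC.stFibre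

theorem shapeE : StShapeE := T9h35.QE.stShapeE T9h75.QC.stCover T9h77.QE.stExtraE

theorem monoE : StMonoE :=
  T9h22.QE.stMonoE (T9h95.QE.stBadInE exchL shapeE T9h41.QE.stBadE)
    (T9h41.QE.stBadOutE exchL shapeE T9h41.QE.stBadE (T9h93.QE.stAllTVE T9h65.QE.stStarE))
    (T9h51.QC.stCircB T9h75.QC.stReduce)

theorem allE : StAllE :=
  T9h22.QE.stAllE monoE T9h36.QC.stDetector T9h36.QC.stReads (T9h93.QE.stTVE T9h65.QE.stStarE)

/-- **The advantage for planted cliques, for every density.** -/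
theorem finalE : StFinalE := stFinalE allE T9h65.QE.stParamsE

/-- **Counting the edges.** -/
theorem countingE : ∃ c : ℝ, 0 < c ∧ ∀ n k a L : ℕ, 2 ≤ k → k ≤ n → 1 ≤ a → a < L →
    L ≤ (L - a) * n ^ 2 → (k : ℝ) ^ 2 * Real.sqrt ((L : ℝ) / a - 1) ≤ n →
    ∃ C : T9h35.RW.Circuit (Fin n × Fin n),
      C.FanIn 2 0 ∧ C.numTests = 0 ∧ C.size ≤ 2 * n ^ 2 ∧ DepthLE C (2 * Nat.log 2 n + 2) ∧
      prob (fun lab : Sym2 (Fin n) → Fin L => C.eval (graphInput (labelGraph lab a)) = true) +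
        c * (Real.sqrt (L / a - 1) * (k ^ 2 / n)) ≤
      prob (fun x : (Sym2 (Fin n) → Fin L) × {S : Finset (Fin n) // S.card = k} =>
        C.eval (graphInput (withClique (labelGraph x.1 a) x.2.1)) = true) :=
  counting_of T9h51.QE.stCountE T9h51.QC.stSum

/-- **From any circuit to circuits with few tests.** -/
theorem slicesE : StP7E :=
  T9h35.QE.stP7E (T9h12.QC.stP5 T9h67.QC.stP0 T9h67.QC.stP1 T9h67.QC.stP2 T9h67.QC.stP3
    (T9h35.QC.stP4 T9h67.QC.stP1)) T9h77.QE.stP6E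

/-- **The average case clique problem at the threshold.** -/
theorem avgE : StAvgE := T9h80.QE.stAvgE finalE T9h16.QL.stBias T9h41.QE.stThrE

end Pool.Agent.T9h34.QE
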